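import Mathlib
import Pool.Agent.N893.TB.Stm

/-!
# Alternating sums of a periodic sequence (helper100, for helper893)
-/

namespace Pool.Agent.N100.TB.BETA

open Filter Finset Pool.Agent.N893.TB

theorem main : tBETA := by
  intro J a hJ hper
  have hJ0 : 0 < J := hJ.pos
  obtain ⟨β, hβ⟩ : ∃ β : ℕ → ℝ, ∀ k, β k = (1 / 2) * ∑ i ∈ range J, (-1 : ℝ) ^ i * a (k + i) :=
    ⟨_, fun _ => rfl⟩
  have hβper : ∀ k, β (k + J) = β k := by
    intro k
    rw [hβ, hβ]
    congr 1
    refine Finset.sum_congr rfl fun i _ => ?_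
    rw [show k + J + i = (k + i) + J by ring, hper]
  have hsum : ∀ k, β k + β (k + 1) = a k := by
    intro k
    have h1 : ∀ i, (-1 : ℝ) ^ i * a (k + i) + (-1) ^ i * a (k + 1 + i) =
        (-1) ^ i * a (k + i) - (-1) ^ (i + 1) * a (k + (i + 1)) := by
      intro i
      rw [pow_succ, show k + 1 + i = k + (i + 1) by ring]
      ring
    rw [hβ, hβ, ← mul_add, ← Finset.sum_add_distrib, Finset.sum_congr rfl (fun i _ => h1 i),
      Finset.sum_range_sub' (fun i => (-1 : ℝ) ^ i * a (k + i))]
    simp only [pow_zero, add_zero, one_mul]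
    rw [hper, hJ.neg_one_pow]
    ring
  refine ⟨β, ∑ m ∈ range J, |β m|, hβper, hsum, ?_, ?_⟩
  · intro k
    have hp : Function.Periodic β J := hβper
    rw [← hp.map_mod_nat k]
    exact Finset.single_le_sum (f := fun m => |β m|) (fun m _ => abs_nonneg _)
      (Finset.mem_range.2 (Nat.mod_lt _ hJ0))
  · intro h01
    have h2 : ∀ k, a k * β (k + 1) - a k / 2 = (β (k + 1) ^ 2 / 2) - (β k ^ 2 / 2) := by
      intro k
      have hsq : a k = a k ^ 2 := by
        rcases h01 k with h | h <;> rw [h] <;> norm_num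
      have h3 : a k = (β k + β (k + 1)) ^ 2 := by
        rw [hsum k]; exact hsq
      have h4 : a k * β (k + 1) = (β k + β (k + 1)) * β (k + 1) := by
        rw [hsum k]
      rw [h4, h3]
      ring
    have h5 : ∑ k ∈ range J, (a k * β (k + 1) - a k / 2) = 0 := by
      rw [Finset.sum_congr rfl (fun k _ => h2 k),
        Finset.sum_range_sub (fun k => β k ^ 2 / 2)]
      have : β J = β 0 := by
        have := hβper 0
        rwa [zero_add] at this
      simp only [this, sub_self]
    rw [Finset.sum_sub_distrib, ← Finset.sum_div] at h5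
    linarith

end Pool.Agent.N100.TB.BETA
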